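import Pool.Agent.H64.STM.Targets

/-! row CMB of MP_fd35e1_ag (board stm): exchanges and permutations -/

set_option autoImplicit false
set_option linter.unusedSectionVars false

open Matrix Pool.Agent.H64.CC Pool.Agent.H2.NL Pool.Agent.H2.KM Pool.Agent.H64.EV Pool.Agent.H64.FTM
open Pool.Agent.H64.STM

namespace Pool.Agent.H38.STM

/-- the permutation of a list of exchanges -/
lemma exch_perm (hACT : T_ACT) (m : ℕ) (js : List ℕ) (hjs : ∀ j ∈ js, j + 2 ≤ m) :
    ∃ σ : Equiv.Perm (Fin m), ∀ (K : Type) [Field K] (I : Type) (o : I → Bool) (t : List I → K),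
      ev m (exch o js t) = ac o σ (ev m t) := by
  induction js with
  | nil =>
    refine ⟨1, fun K _ I o t => ?_⟩
    rw [(hACT K I o m).2.1]
    rfl
  | cons j js ih =>
    obtain ⟨σ, hσ⟩ := ih fun i hi => hjs i (List.mem_cons_of_mem _ hi)
    have hj : j + 1 < m := by
      have := hjs j List.mem_cons_self
      omega
    refine ⟨Equiv.swap ⟨j, Nat.lt_of_succ_lt hj⟩ ⟨j + 1, hj⟩ * σ, fun K _ I o t => ?_⟩
    rw [(hACT K I o m).1, ← hσ K I o t, ← (hACT K I o m).2.2.1 j hj]
    rfl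

theorem pf_CMB (hACT : T_ACT) : T_CMB := by
  intro k c
  induction c with
  | nil =>
    intro _
    refine ⟨[], fun K _ _ I _ _ o Ω => ?_⟩
    rfl
  | cons x c ih =>
    intro hc
    obtain ⟨c', hc'⟩ := ih fun y hy => hc y (List.mem_cons_of_mem _ hy)
    obtain ⟨σ, hσ⟩ := exch_perm hACT (2 * k) x.2 (hc x List.mem_cons_self)
    refine ⟨(x.1, σ) :: c', fun K _ _ I _ _ o Ω => ?_⟩
    funext w
    have h1 := congrFun (hc' K I o Ω) w
    have h2 := congrFun (hσ K I o (omk Ω k)) w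
    show (x.1 : K) * exch o x.2 (omk Ω k) (List.ofFn w) + comb o Ω k c (List.ofFn w) =
      (x.1 : K) * ac o σ (ev (2 * k) (omk Ω k)) w + lc o (ev (2 * k) (omk Ω k)) c' w
    rw [← h1, ← h2]
    rfl

end Pool.Agent.H38.STM
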