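import Pool.Agent.H64.STM.Targets

/-! row HYP of MP_fd35e1_ag (board stm): symmetries of the standard diagram -/

set_option autoImplicit false
set_option linter.unusedSectionVars false

open Matrix Pool.Agent.H64.CC Pool.Agent.H2.NL Pool.Agent.H2.KM Pool.Agent.H64.EV Pool.Agent.H64.FTM
open Pool.Agent.H64.STM

namespace Pool.Agent.H38.STM

/-- the permutation fixes the diagram, for all forms -/
def Fx (k : ℕ) (h : Equiv.Perm (Fin (2 * k))) : Prop :=
  ∀ (K : Type) [Field K] (I : Type) [Fintype I] [DecidableEq I] (F : OForm K I),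
    ac F.o h (dg F k) = dg F k

/-- the adjacent transposition -/
def sj {m : ℕ} (j : ℕ) (hj : j + 1 < m) : Equiv.Perm (Fin m) :=
  Equiv.swap ⟨j, Nat.lt_of_succ_lt hj⟩ ⟨j + 1, hj⟩

lemma sj_val {m : ℕ} (j : ℕ) (hj : j + 1 < m) (i : Fin m) :
    (sj j hj i).1 = if i.1 = j then j + 1 else if i.1 = j + 1 then j else i.1 := by
  unfold sj
  rw [Equiv.swap_apply_def]
  by_cases h1 : i.1 = j
  · rw [if_pos (Fin.ext h1), if_pos h1]
  · rw [if_neg (fun h => h1 (congrArg Fin.val h)), if_neg h1]
    by_cases h2 : i.1 = j + 1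
    · rw [if_pos (Fin.ext h2), if_pos h2]
    · rw [if_neg (fun h => h2 (congrArg Fin.val h)), if_neg h2]

lemma Fx_mul (hACT : T_ACT) {k : ℕ} {h h' : Equiv.Perm (Fin (2 * k))} (h1 : Fx k h) (h2 : Fx k h') :
    Fx k (h * h') := by
  intro K _ I _ _ F
  rw [(hACT K I F.o (2 * k)).1, h2 K I F, h1 K I F]

lemma Fx_one (hACT : T_ACT) {k : ℕ} : Fx k 1 := by
  intro K _ I _ _ F
  exact (hACT K I F.o (2 * k)).2.1 _

section words

variable {K : Type} [Field K] {I : Type} [Fintype I]

lemma omk_append (Ω : Matrix I I K) (r q : ℕ) : ∀ α β : List I, α.length = 2 * q →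
    omk Ω (q + r) (α ++ β) = omk Ω q α * omk Ω r β := by
  induction q with
  | zero =>
    intro α β hα
    have h : α = [] := List.length_eq_zero_iff.1 (by omega)
    rw [h, Nat.zero_add]
    show omk Ω r β = 1 * omk Ω r β
    rw [one_mul]
  | succ q ih =>
    intro α β hα
    have e : q + 1 + r = (q + r) + 1 := by omega
    rw [e]
    match α, hα with
    | a :: b :: α, hα =>
      show two Ω ((a :: b :: (α ++ β)).take 2) * omk Ω (q + r) ((a :: b :: (α ++ β)).drop 2) =
        two Ω ((a :: b :: α).take 2) * omk Ω q ((a :: b :: α).drop 2) * omk Ω r β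
      have h1 : α.length = 2 * q := by
        simp only [List.length_cons] at hα
        omega
      show Ω a b * omk Ω (q + r) (α ++ β) = Ω a b * omk Ω q α * omk Ω r β
      rw [ih α β h1, mul_assoc]

lemma omk_pair (Ω : Matrix I I K) (r : ℕ) (a b : I) (β : List I) :
    omk Ω (r + 1) (a :: b :: β) = Ω a b * omk Ω r β := rfl

end words

section form

variable {K : Type} [Field K] {I : Type} [Fintype I] [DecidableEq I] (F : OForm K I)

lemma om_symm (a b : I) : ks K (F.o a) (F.o b) * F.ω b a = F.ω a b := by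
  unfold OForm.ω
  rw [Matrix.of_apply, Matrix.of_apply]
  by_cases h : b = F.st a
  · have h' : a = F.st b := by rw [h, F.st_st]
    rw [if_pos h', if_pos h, h, F.o_st, F.c_st, ks_self, mul_inv]
    have h2 : sg K (F.o a) * (sg K (F.o a))⁻¹ = 1 := by
      refine mul_inv_cancel₀ ?_
      intro h3
      have h4 := sg_mul_self K (F.o a)
      rw [h3, mul_zero] at h4
      exact zero_ne_one h4
    have h5 : (sg K (F.o a))⁻¹ = sg K (F.o a) := by
      rw [inv_eq_of_mul_eq_one_right (sg_mul_self K (F.o a))]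
    rw [h5]
  · have h' : ¬ a = F.st b := by
      rintro rfl
      exact h (F.st_st b).symm
    rw [if_neg h', if_neg h, mul_zero]

lemma om_o {a b : I} (h : F.ω a b ≠ 0) : F.o b = F.o a := by
  unfold OForm.ω at h
  rw [Matrix.of_apply] at h
  by_cases h' : b = F.st a
  · rw [h', F.o_st]
  · rw [if_neg h'] at h
    exact absurd rfl h

/-- the first kind of symmetries -/
lemma sw_pair (q k : ℕ) (hq : q < k) (w : List I) (hw : w.length = 2 * k) :
    sw F.o (2 * q) (omk F.ω k) w = omk F.ω k w := by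
  obtain ⟨α, a, b, β, hα, rfl⟩ := exists_split (2 * q) w (by omega)
  obtain ⟨r, rfl⟩ : ∃ r, k = q + (r + 1) := ⟨k - q - 1, by omega⟩
  rw [← hα, sw_append, omk_append F.ω (r + 1) q α _ hα, omk_append F.ω (r + 1) q α _ hα, omk_pair,
    omk_pair, ← om_symm F a b]
  ring

/-- the second kind of symmetries -/
lemma sw_four (q k : ℕ) (hq : q + 1 < k) (w : List I) (hw : w.length = 2 * k) :
    sw F.o (2 * q + 1) (sw F.o (2 * q) (sw F.o (2 * q + 2) (sw F.o (2 * q + 1) (omk F.ω k)))) w =
      omk F.ω k w := by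
  obtain ⟨α, a, b, β', hα, rfl⟩ := exists_split (2 * q) w (by omega)
  obtain ⟨r, rfl⟩ : ∃ r, k = q + (r + 1 + 1) := ⟨k - q - 2, by omega⟩
  simp only [List.length_append, List.length_cons] at hw
  obtain ⟨c, d, β, rfl⟩ : ∃ (c d : I) (β : List I), β' = c :: d :: β := by
    rcases β' with _ | ⟨c, _ | ⟨d, β⟩⟩
    · simp only [List.length_nil] at hw
      omega
    · simp only [List.length_cons, List.length_nil] at hw
      omega
    · exact ⟨c, d, β, rfl⟩
  · have e1 : ∀ (t : List I → K) (x y z : I) (l : List I),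
        sw F.o (2 * q + 1) t (α ++ x :: y :: z :: l) = ks K (F.o y) (F.o z) * t (α ++ x :: z :: y :: l) := by
      intro t x y z l
      have h := sw_append F.o (α ++ [x]) t y z l
      rw [List.length_append, List.length_singleton, hα] at h
      simpa using h
    have e0 : ∀ (t : List I → K) (x y : I) (l : List I),
        sw F.o (2 * q) t (α ++ x :: y :: l) = ks K (F.o x) (F.o y) * t (α ++ y :: x :: l) := by
      intro t x y l
      have h := sw_append F.o α t x y l
      rwa [hα] at h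
    have e2 : ∀ (t : List I → K) (x y z u : I) (l : List I),
        sw F.o (2 * q + 2) t (α ++ x :: y :: z :: u :: l) =
          ks K (F.o z) (F.o u) * t (α ++ x :: y :: u :: z :: l) := by
      intro t x y z u l
      have h := sw_append F.o (α ++ [x, y]) t z u l
      rw [List.length_append, hα] at h
      simpa using h
    rw [e1, e0, e2, e1, omk_append F.ω _ q α _ hα, omk_append F.ω _ q α _ hα, omk_pair, omk_pair,
      omk_pair, omk_pair]
    by_cases h1 : F.ω a b = 0
    · rw [h1]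
      ring
    · by_cases h2 : F.ω c d = 0
      · rw [h2]
        ring
      · rw [om_o F h1, om_o F h2]
        have h3 := ks_mul_self K (F.o a) (F.o c)
        linear_combination (ks K (F.o a) (F.o c) * ks K (F.o a) (F.o c) + 1) * (omk F.ω q α *
          (F.ω a b * (F.ω c d * omk F.ω r β))) * h3

end form

lemma ev_congr {K I : Type} {m : ℕ} {t t' : List I → K} (h : ∀ w : List I, w.length = m → t w = t' w) :
    ev m t = ev m t' := by
  funext w
  exact h _ (List.length_ofFn)

lemma fx_one' (hACT : T_ACT) (q k : ℕ) (hq : q < k) : Fx k (sj (2 * q) (by omega)) := by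
  intro K _ I _ _ F
  show ac F.o (Equiv.swap _ _) (ev (2 * k) (omk F.ω k)) = ev (2 * k) (omk F.ω k)
  rw [← (hACT K I F.o (2 * k)).2.2.1 (2 * q) (by omega)]
  exact ev_congr fun w hw => sw_pair F q k hq w hw

/-- the exchange of two pairs -/
def pq {m : ℕ} (q : ℕ) (hq : 2 * q + 3 < m) : Equiv.Perm (Fin m) :=
  sj (2 * q + 1) (by omega) * (sj (2 * q) (by omega) * (sj (2 * q + 2) hq * sj (2 * q + 1) (by omega)))

lemma fx_two (hACT : T_ACT) (q k : ℕ) (hq : q + 1 < k) : Fx k (pq q (by omega)) := by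
  intro K _ I _ _ F
  have h := (hACT K I F.o (2 * k)).2.2.1
  have hm := (hACT K I F.o (2 * k)).1
  unfold pq
  rw [hm, hm, hm]
  show ac F.o (Equiv.swap _ _) (ac F.o (Equiv.swap _ _) (ac F.o (Equiv.swap _ _)
    (ac F.o (Equiv.swap _ _) (ev (2 * k) (omk F.ω k))))) = ev (2 * k) (omk F.ω k)
  rw [← h (2 * q + 1) (by omega), ← h (2 * q + 2) (by omega), ← h (2 * q) (by omega),
    ← h (2 * q + 1) (by omega)]
  exact ev_congr fun w hw => sw_four F q k hq w hw

lemma pq_val {m : ℕ} (q : ℕ) (hq : 2 * q + 3 < m) (i : Fin m) :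
    (i.1 = 2 * q → (pq q hq i).1 = 2 * q + 2) ∧ (i.1 < 2 * q → (pq q hq i).1 = i.1) := by
  have e : pq q hq i = sj (2 * q + 1) (by omega) (sj (2 * q) (by omega) (sj (2 * q + 2) hq
    (sj (2 * q + 1) (by omega) i))) := rfl
  rw [e]
  constructor
  · intro h
    rw [sj_val, sj_val, sj_val, sj_val, h]
    split_ifs <;> omega
  · intro h
    rw [sj_val, sj_val, sj_val, sj_val]
    split_ifs <;> omega

lemma base (hACT : T_ACT) (k c : ℕ) (q : ℕ) : c ≤ q → q < k →
    ∃ h : Equiv.Perm (Fin (2 * k)), Fx k h ∧ (∀ i, i.1 < 2 * c → (h i).1 = i.1) ∧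
      ∀ i, i.1 = 2 * c → (h i).1 = 2 * q := by
  induction q with
  | zero =>
    intro hc _
    refine ⟨1, Fx_one hACT, fun i _ => rfl, fun i hi => ?_⟩
    show i.1 = 2 * 0
    omega
  | succ q ih =>
    intro hc hk
    rcases Nat.lt_or_ge q c with h | h
    · have hcq : c = q + 1 := by omega
      refine ⟨1, Fx_one hACT, fun i _ => rfl, fun i hi => ?_⟩
      show i.1 = 2 * (q + 1)
      omega
    · obtain ⟨g, g1, g2, g3⟩ := ih h (by omega)
      refine ⟨pq q (by omega) * g, Fx_mul hACT (fx_two hACT q k hk) g1, fun i hi => ?_, fun i hi => ?_⟩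
      · have h1 := g2 i hi
        show (pq q _ (g i)).1 = i.1
        rw [(pq_val q _ (g i)).2 (by omega), h1]
      · have h1 := g3 i hi
        show (pq q _ (g i)).1 = 2 * (q + 1)
        rw [(pq_val q _ (g i)).1 h1]
        ring

lemma full (hACT : T_ACT) (k c : ℕ) (p : Fin (2 * k)) (hp : 2 * c ≤ p.1) :
    ∃ h : Equiv.Perm (Fin (2 * k)), Fx k h ∧ (∀ i, i.1 < 2 * c → h i = i) ∧
      ∀ i, i.1 = 2 * c → h i = p := by
  have hpk := p.2
  obtain ⟨g, g1, g2, g3⟩ := base hACT k c (p.1 / 2) (by omega) (by omega)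
  rcases Nat.even_or_odd' p.1 with ⟨r, hr | hr⟩
  · refine ⟨g, g1, fun i hi => Fin.ext (g2 i hi), fun i hi => Fin.ext ?_⟩
    rw [g3 i hi]
    omega
  · refine ⟨sj (2 * (p.1 / 2)) (by omega) * g, Fx_mul hACT (fx_one' hACT (p.1 / 2) k (by omega)) g1,
      fun i hi => Fin.ext ?_, fun i hi => Fin.ext ?_⟩
    · show (sj _ _ (g i)).1 = i.1
      rw [sj_val, g2 i hi]
      split_ifs <;> omega
    · show (sj _ _ (g i)).1 = p.1
      rw [sj_val, g3 i hi]
      split_ifs <;> omega

theorem pf_HYP (hKAP : T_KAP) (hACT : T_ACT) : T_HYP := by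
  intro k
  constructor
  · intro p
    obtain ⟨h, h1, -, h3⟩ := full hACT (k + 1) 0 p (by omega)
    exact ⟨h, fun i hi => h3 i (by omega), h1⟩
  · intro p hp
    obtain ⟨h, h1, h2, h3⟩ := full hACT (k + 1) 1 p (by omega)
    exact ⟨h, fun i hi => h2 i (by omega), fun i hi => h3 i (by omega), h1⟩

end Pool.Agent.H38.STM
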